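import Mathlib
namespace Pool.Agent.H.MP_084e97_mp

noncomputable section

def St (φ : ℝ) (n : ℤ) : Bool := decide (φ ≤ Int.fract (n * φ))

def ph : ℝ := √2 - 1

lemma s2a : 1 < √2 := by rw [Real.lt_sqrt (by norm_num)]; norm_num
lemma s2b : √2 < 3 / 2 := by rw [Real.sqrt_lt' (by norm_num)]; norm_num
lemma ph0 : 0 < ph := by unfold ph; linarith [s2a]
lemma ph1 : ph < 1 := by unfold ph; linarith [s2b]
lemma ph_irr : Irrational ph := by
  have := irrational_sqrt_two.sub_intCast 1
  simpa [ph] using this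

def s (n : ℤ) : ℝ := Int.fract (n * ph)

abbrev X0 : ℤ → Bool := St ph

lemma fr_step (θ : ℝ) : Int.fract (θ + ph) - Int.fract θ
    = ph - if ph ≤ Int.fract (θ + ph) then 0 else 1 := by
  have h0 := Int.fract_nonneg θ
  have h1 := Int.fract_lt_one θ
  have e : Int.fract (θ + ph) = Int.fract (Int.fract θ + ph) := by
    conv_lhs => rw [← Int.fract_add_floor θ, add_right_comm, Int.fract_add_intCast]
  rcases lt_or_ge (Int.fract θ + ph) 1 with h | h
  · rw [e, Int.fract_eq_self.2 ⟨by linarith [ph0], h⟩, if_pos (by linarith)]; ring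
  · have e2 : Int.fract (Int.fract θ + ph) = Int.fract θ + ph - 1 := by
      rw [← Int.fract_sub_one, Int.fract_eq_self.2 ⟨by linarith, by linarith [ph1]⟩]
    rw [e, e2, if_neg (by linarith)]; ring

lemma s_step (n : ℤ) : s n - s (n - 1) = ph - if X0 n = true then 0 else 1 := by
  have := fr_step (((n - 1 : ℤ) : ℝ) * ph)
  have e : ((n - 1 : ℤ) : ℝ) * ph + ph = n * ph := by push_cast; ring
  rw [e] at this
  simpa [s, St] using this

lemma gap (N : ℕ) (hN : 0 < N) (a : ℤ) : ∃ l : ℤ, 0 ≤ l ∧ l < N ∧ 1 - 12 / (N + 1) ≤ s (a + l) := by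
  obtain ⟨r, h1, h2⟩ := Real.exists_rat_abs_sub_le_and_den_le ph hN
  have hq : (0 : ℝ) < r.den := by exact_mod_cast r.den_pos
  have hq1 : (1 : ℝ) ≤ r.den := by exact_mod_cast r.den_pos
  have hN1 : (r.den : ℝ) ≤ N := by exact_mod_cast h2
  have er : (r : ℝ) = r.num / r.den := Rat.cast_def r
  obtain ⟨e, he⟩ : ∃ e, e = r.den * ph - r.num := ⟨_, rfl⟩
  have h3 : |e| ≤ 1 / (N + 1) := by
    have : e = r.den * (ph - r) := by rw [he, er]; field_simp
    rw [this, abs_mul, abs_of_pos hq]
    calc (r.den : ℝ) * |ph - r| ≤ r.den * (1 / ((N + 1) * r.den)) := by gcongr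
      _ = _ := by field_simp
  have h4 : (N : ℝ) + 1 ≤ 4 * r.den := by
    have hz : (2 * (r.den : ℤ) ^ 2 - (r.num + r.den) ^ 2 : ℤ) ≠ 0 := by
      intro h
      have h' : (2 : ℝ) * (r.den : ℝ) ^ 2 - (r.num + r.den) ^ 2 = 0 := by exact_mod_cast h
      have : √2 = |((r.num + r.den) / r.den : ℝ)| := by
        rw [← Real.sqrt_sq_eq_abs]; congr 1; field_simp; linarith
      exact irrational_sqrt_two ⟨|(r.num + r.den) / r.den|, by rw [this]; push_cast; rfl⟩
    have h5 : (1 : ℝ) ≤ |2 * (r.den : ℝ) ^ 2 - (r.num + r.den) ^ 2| := by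
      have := Int.one_le_abs hz
      exact_mod_cast this
    have h6 : 2 * (r.den : ℝ) ^ 2 - (r.num + r.den) ^ 2 = e * (2 * r.den * √2 - e) := by
      have := Real.sq_sqrt (show (0 : ℝ) ≤ 2 by norm_num)
      rw [he, ph]; nlinarith
    have h7 : 1 / ((N : ℝ) + 1) ≤ 1 := by rw [div_le_one (by positivity)]; linarith
    have h8 : |2 * r.den * √2 - e| ≤ 4 * r.den := by
      have := abs_le.1 (h3.trans h7)
      rw [abs_le]; constructor <;> nlinarith [s2a, s2b]
    rw [h6, abs_mul] at h5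
    have := h5.trans (mul_le_mul h3 h8 (abs_nonneg _) (by positivity))
    rwa [div_mul_eq_mul_div, le_div_iff₀ (by positivity), one_mul, one_mul] at this
  obtain ⟨t, ht⟩ : ∃ t : ℤ, t = ⌈r.den * -(a * ph)⌉ - 2 := ⟨_, rfl⟩
  have t1 := Int.le_ceil (r.den * -(a * ph))
  have t2 := Int.ceil_lt_add_one (r.den * -(a * ph))
  obtain ⟨u, v, huv⟩ : IsCoprime r.num (r.den : ℤ) := by
    rw [Int.isCoprime_iff_gcd_eq_one]; exact r.reduced
  have hd : (0 : ℤ) < r.den := by exact_mod_cast r.den_pos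
  have l0 := Int.emod_nonneg (u * t) hd.ne'
  have l1 := Int.emod_lt_of_pos (u * t) hd
  have l2 := Int.emod_add_mul_ediv (u * t) r.den
  obtain ⟨l, hl⟩ : ∃ l, l = u * t % r.den := ⟨_, rfl⟩
  rw [← hl] at l0 l1 l2
  obtain ⟨k, hk⟩ : ∃ k : ℤ, l * r.num = t + k * r.den :=
    ⟨-(v * t) - u * t / r.den * r.num, by linear_combination r.num * l2 + t * huv⟩
  refine ⟨l, l0, by omega, ?_⟩
  have hk' : (l : ℝ) * r.num = t + k * r.den := by exact_mod_cast hk
  have ht' : (t : ℝ) = ⌈r.den * -(a * ph)⌉ - 2 := by exact_mod_cast ht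
  have l0' : (0 : ℝ) ≤ l := by exact_mod_cast l0
  have l1' : (l : ℝ) ≤ r.den := by exact_mod_cast l1.le
  have h9 : |l * e| < 1 := by
    rw [abs_mul, abs_of_nonneg l0']
    calc (l : ℝ) * |e| ≤ N * (1 / (N + 1)) := by gcongr; linarith
      _ < 1 := by rw [mul_one_div, div_lt_one (by positivity)]; linarith
  have h10 := abs_lt.1 h9
  obtain ⟨z, hz⟩ : ∃ z : ℝ, z = (a + l) * ph - k := ⟨_, rfl⟩
  have z1 : r.den * z = r.den * (a * ph) + t + l * e := by rw [hz, he]; linear_combination hk'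
  have z2 : z < 0 := by
    by_contra hc
    push Not at hc
    nlinarith
  have z3 : -(12 / ((N : ℝ) + 1)) ≤ z := by
    have : -3 ≤ r.den * z := by nlinarith
    rw [neg_le, le_div_iff₀ (by positivity)]
    nlinarith
  have z4 : s (a + l) = Int.fract z := by
    rw [hz, Int.fract_sub_intCast, s]; push_cast; rfl
  have z5 : (⌊z⌋ : ℝ) ≤ -1 := by
    have : ⌊z⌋ < 0 := by rw [Int.floor_lt]; simpa using z2
    have : ⌊z⌋ ≤ -1 := by omega
    exact_mod_cast this
  rw [z4, Int.fract]; linarith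

def Ag (n : ℕ) (m m' : ℤ) : Prop := ∀ l : ℤ, -(n : ℤ) ≤ l → l < n → X0 (m + l) = X0 (m' + l)

def Lip (g : ℤ → ℝ) : Prop := ∃ C, ∀ n m m', Ag n m m' → |g m - g m'| ≤ C / (n + 1)

lemma s_le (n : ℕ) (m m' : ℤ) (h : Ag n m m') : s m' - s m ≤ 6 / (n + 1) := by
  have key : ∀ j : ℕ, j ≤ 2 * n → s (m' - n - 1 + j) - s (m - n - 1 + j)
      = s (m' - n - 1) - s (m - n - 1) := by
    intro j
    induction j with
    | zero => simp
    | succ j ih =>
      intro hj
      have h1 := s_step (m' - n + j)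
      have h2 := s_step (m - n + j)
      have h3 := h (-n + j) (by omega) (by omega)
      rw [show m + (-n + j) = m - n + j by ring, show m' + (-n + j) = m' - n + j by ring] at h3
      rw [h3] at h2
      rw [← ih (by omega)]
      push_cast
      rw [show m' - n - 1 + (j + 1) = m' - n + j by ring, show m - n - 1 + (j + 1) = m - n + j by ring,
        show m' - n - 1 + j = m' - n + j - 1 by ring, show m - n - 1 + j = m - n + j - 1 by ring]
      linarith
  rcases Nat.eq_zero_or_pos n with rfl | hn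
  · have := Int.fract_lt_one (m' * ph); have := Int.fract_nonneg (m * ph)
    simp only [s]; norm_num; linarith
  obtain ⟨l, l0, l1, l2⟩ := gap (2 * n + 1) (by omega) (m - n - 1)
  lift l to ℕ using l0
  have h1 := key l (by omega)
  have h2 := key (n + 1) (by omega)
  push_cast at h2 l2
  rw [show m' - n - 1 + (n + 1) = m' by ring, show m - n - 1 + (n + 1) = m by ring] at h2
  have h3 : s (m' - n - 1 + l) < 1 := Int.fract_lt_one _
  have h4 : (12 : ℝ) / (2 * n + 1 + 1) = 6 / (n + 1) := by field_simp; ring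
  linarith

lemma lip_s : Lip s := ⟨6, fun n m m' h => abs_le.2
  ⟨by linarith [s_le n m m' h], s_le n m' m fun l h1 h2 => (h l h1 h2).symm⟩⟩

lemma Lip.shift {g : ℤ → ℝ} (h : Lip g) (e : ℤ) (he : e = 1 ∨ e = -1) : Lip fun m => g (m + e) := by
  obtain ⟨C, hC⟩ := h
  have C0 : 0 ≤ C := by simpa using hC 0 0 0 fun _ _ _ => rfl
  refine ⟨2 * C, fun n m m' h => ?_⟩
  rcases n with _ | n
  · have := hC 0 (m + e) (m' + e) fun l h1 h2 => by omega
    simp at this ⊢; linarith
  · refine (hC n (m + e) (m' + e) fun l h1 h2 => ?_).trans ?_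
    · rw [add_assoc, add_assoc]; exact h (e + l) (by omega) (by omega)
    · rw [div_le_div_iff₀ (by positivity) (by positivity)]
      push_cast
      have : (0 : ℝ) ≤ n := Nat.cast_nonneg n
      nlinarith

lemma lip_sj (j : ℤ) : Lip fun m => s (m + j) := by
  induction j using Int.induction_on with
  | zero => simpa using lip_s
  | succ j ih => simpa [add_assoc, add_comm (1 : ℤ)] using ih.shift 1 (Or.inl rfl)
  | pred j ih =>
    have := ih.shift (-1) (Or.inr rfl)
    simp only [add_assoc] at this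
    simpa [sub_eq_add_neg, add_comm (-1 : ℤ)] using this

def Cob : Submodule ℝ (ℤ → ℝ) where
  carrier := {F | ∃ c g, Lip g ∧ ∀ i, F i = c + g (i + 1) - g i}
  add_mem' := by
    rintro F F' ⟨c, g, ⟨C, hC⟩, h⟩ ⟨c', g', ⟨C', hC'⟩, h'⟩
    refine ⟨c + c', fun i => g i + g' i, ⟨C + C', fun n m m' a => ?_⟩, fun i => ?_⟩
    · have := abs_le.1 (hC n m m' a); have := abs_le.1 (hC' n m m' a)
      rw [add_div, abs_le]; constructor <;> linarith
    · rw [Pi.add_apply, h, h']; ring
  zero_mem' := ⟨0, fun _ => 0, ⟨0, by simp⟩, by simp⟩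
  smul_mem' := by
    rintro b F ⟨c, g, ⟨C, hC⟩, h⟩
    refine ⟨b * c, fun i => b * g i, ⟨|b| * C, fun n m m' a => ?_⟩, fun i => ?_⟩
    · rw [← mul_sub, abs_mul, mul_div_assoc]
      exact mul_le_mul_of_nonneg_left (hC n m m' a) (abs_nonneg _)
    · rw [Pi.smul_apply, h, smul_eq_mul]; ring

lemma cob_const (c : ℝ) : (fun _ => c) ∈ Cob := ⟨c, fun _ => 0, ⟨0, by simp⟩, by simp⟩

lemma cob_d (j : ℤ) : (fun i => s (i + (j + 1)) - s (i + j)) ∈ Cob :=
  ⟨0, fun i => s (i + j), lip_sj j, fun i => by simp [add_assoc, add_comm (1 : ℤ)]⟩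

lemma cob_sj (j : ℤ) : (fun i => s (i + j) - s i) ∈ Cob := by
  induction j using Int.induction_on with
  | zero => simpa using cob_const 0
  | succ j ih => convert Cob.add_mem ih (cob_d j) using 2; simp
  | pred j ih => convert Cob.sub_mem ih (cob_d (-j - 1)) using 2; simp

def ee (j i : ℤ) : ℝ := if s i < s j then 1 else 0

lemma ee_eq (j i : ℤ) : ee j i = s (i - j) - s i + s j := by
  have e : s (i - j) = Int.fract (s i - s j) := by
    unfold s
    rw [Int.fract_eq_fract]
    refine ⟨⌊(i : ℝ) * ph⌋ - ⌊(j : ℝ) * ph⌋, ?_⟩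
    simp only [Int.fract]; push_cast; ring
  have h1 : 0 ≤ s i := Int.fract_nonneg _
  have h2 : s i < 1 := Int.fract_lt_one _
  have h3 : 0 ≤ s j := Int.fract_nonneg _
  have h4 : s j < 1 := Int.fract_lt_one _
  unfold ee
  split_ifs with h
  · rw [e, ← Int.fract_add_one, Int.fract_eq_self.2 ⟨by linarith, by linarith⟩]; ring
  · rw [e, Int.fract_eq_self.2 ⟨by linarith, by linarith⟩]; ring

lemma cob_ee (j : ℤ) : ee j ∈ Cob := by
  convert Cob.add_mem (cob_sj (-j)) (cob_const (s j)) using 1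
  funext i
  simp [ee_eq, sub_eq_add_neg]

def Alg : Subalgebra ℝ (ℤ → ℝ) := Algebra.adjoin ℝ (Set.range ee)

lemma alg_cob {F : ℤ → ℝ} (h : F ∈ Alg) : F ∈ Cob := by
  have : Subalgebra.toSubmodule Alg ≤ Cob := by
    rw [Alg, Algebra.adjoin_eq_span, Submodule.span_le]
    intro F hF
    have : F = 1 ∨ F ∈ Set.range ee := by
      induction hF using Submonoid.closure_induction with
      | mem x h => exact Or.inr h
      | one => exact Or.inl rfl
      | mul x y _ _ hx hy =>
        rcases hx with rfl | ⟨j, rfl⟩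
        · simpa using hy
        rcases hy with rfl | ⟨k, rfl⟩
        · simp
        right
        rcases le_total (s j) (s k) with h | h
        · exact ⟨j, funext fun i => by
            simp only [ee, Pi.mul_apply]; split_ifs <;> first | linarith | simp⟩
        · exact ⟨k, funext fun i => by
            simp only [ee, Pi.mul_apply]; split_ifs <;> first | linarith | simp⟩
    rcases this with rfl | ⟨j, rfl⟩
    · exact cob_const 1
    · exact cob_ee j
  exact this h

lemma alg_bit (l : ℤ) (b : Bool) : (fun i => if X0 (i + l) = b then (1 : ℝ) else 0) ∈ Alg := by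
  have h1 : ∀ j, ee j ∈ Alg := fun j => Algebra.subset_adjoin ⟨j, rfl⟩
  have h2 : (fun i => if X0 (i + l) = true then (0 : ℝ) else 1) ∈ Alg := by
    convert Alg.add_mem (Alg.sub_mem (h1 (1 - l)) (h1 (-l)))
      (Alg.algebraMap_mem (ph + s (-l) - s (1 - l))) using 2 with i
    have := s_step (i + l)
    simp only [Pi.add_apply, Pi.sub_apply, ee_eq, Pi.algebraMap_apply, Algebra.algebraMap_self,
      RingHom.id_apply]
    rw [show i - (1 - l) = i + l - 1 by ring, show i - -l = i + l by ring]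
    linarith
  cases b
  · convert h2 using 2 with i
    cases X0 (i + l) <;> simp
  · convert Alg.sub_mem Alg.one_mem h2 using 2 with i
    cases h : X0 (i + l) <;> simp [h]

lemma local_cob (Λ : Finset ℤ) (F : (ℤ → Bool) → ℝ)
    (hF : ∀ X Y, (∀ i ∈ Λ, X i = Y i) → F X = F Y) : (fun i => F fun j => X0 (i + j)) ∈ Cob := by
  refine alg_cob ?_
  have e : (fun i => F fun j => X0 (i + j)) = ∑ p : Λ → Bool,
      F (fun j => if h : j ∈ Λ then p ⟨j, h⟩ else false) •
        ∏ l : Λ, fun i => if X0 (i + l) = p l then (1 : ℝ) else 0 := by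
    funext i
    simp only [Finset.sum_apply, Pi.smul_apply, Finset.prod_apply, smul_eq_mul,
      Finset.prod_boole, Finset.mem_univ, true_imp_iff]
    rw [Finset.sum_eq_single fun l : Λ => X0 (i + l)]
    · simp only [implies_true, if_true, mul_one]
      exact hF _ _ fun j hj => by simp [hj]
    · intro p _ hp
      rw [if_neg fun h => hp (funext fun l => (h l).symm), mul_zero]
    · simp
  rw [e]
  exact Alg.sum_mem fun p _ => Alg.smul_mem (Alg.prod_mem fun (l : Λ) _ => alg_bit l (p l)) _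

end

end Pool.Agent.H.MP_084e97_mp
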