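import Mathlib
import Pool.Agent.H.MP_084e97_mp.A
namespace Pool.Agent.H.MP_084e97_mp

open Finset

noncomputable section

open Classical

def Leg (Y : ℤ → Bool) (a b : ℤ) : Prop := ∃ m, ∀ i, a ≤ i → i < b → Y i = X0 (i + m)

lemma Leg.mono {Y : ℤ → Bool} {a b a' b' : ℤ} (h : Leg Y a b) (h1 : a ≤ a') (h2 : b' ≤ b) :
    Leg Y a' b' := by
  obtain ⟨m, hm⟩ := h
  exact ⟨m, fun i a b => hm i (by omega) (by omega)⟩

def pos (Y : ℤ → Bool) (x : ℤ) : ℕ → ℤ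
  | 0 => if h : Leg Y (x - 2 ^ 0) (x + 2 ^ 0) then x + h.choose else 0
  | k + 1 => if h : Leg Y (x - 2 ^ (k + 1)) (x + 2 ^ (k + 1)) then x + h.choose else pos Y x k

lemma pos_spec {Y : ℤ → Bool} {x : ℤ} {k : ℕ} (h : Leg Y (x - 2 ^ k) (x + 2 ^ k)) (l : ℤ)
    (h1 : -2 ^ k ≤ l) (h2 : l < 2 ^ k) : Y (x + l) = X0 (pos Y x k + l) := by
  have e : pos Y x k = x + h.choose := by cases k <;> rw [pos, dif_pos h]
  rw [e, h.choose_spec (x + l) (by omega) (by omega)]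
  congr 1; ring

variable {g : ℤ → ℝ} {C : ℝ} (hg : ∀ n m m', Ag n m m' → |g m - g m'| ≤ C / (n + 1))
include hg

lemma C0 : 0 ≤ C := by simpa using hg 0 0 0 fun _ _ _ => rfl

lemma osc (m m' : ℤ) : |g m - g m'| ≤ C := by
  simpa using hg 0 m m' fun l h1 h2 => by omega

lemma close {Y : ℤ → Bool} {x m : ℤ} {k : ℕ}
    (h : ∀ l : ℤ, -2 ^ k ≤ l → l < 2 ^ k → Y (x + l) = X0 (m + l)) :
    |g m - g (pos Y x k)| ≤ C / 2 ^ k := by
  have hl : Leg Y (x - 2 ^ k) (x + 2 ^ k) := ⟨m - x, fun i h1 h2 => by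
    have := h (i - x) (by omega) (by omega)
    rw [show x + (i - x) = i by ring, show m + (i - x) = i + (m - x) by ring] at this
    exact this⟩
  refine (hg (2 ^ k) m _ fun l h1 h2 => ?_).trans ?_
  · push_cast at h1 h2
    rw [← h l h1 h2, pos_spec hl l h1 h2]
  · push_cast
    exact div_le_div_of_nonneg_left (C0 hg) (by positivity) (by linarith)

lemma pos_step (Y : ℤ → Bool) (x : ℤ) (k : ℕ) :
    |g (pos Y x (k + 1)) - g (pos Y x k)| ≤ C / 2 ^ k := by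
  by_cases h : Leg Y (x - 2 ^ (k + 1)) (x + 2 ^ (k + 1))
  · have p : (0 : ℤ) < 2 ^ k := by positivity
    exact close hg fun l h1 h2 => pos_spec h l (by rw [pow_succ]; omega) (by rw [pow_succ]; omega)
  · rw [pos, dif_neg h, sub_self, abs_zero]
    have := C0 hg
    positivity

omit hg in
def en (Y : ℤ → Bool) (j : ℕ) (b : ℤ) : ℝ :=
  if Leg Y (b - 2 * 2 ^ j) (b + 2 * 2 ^ j) then 0 else 1 / 4 ^ j

omit hg in
def EE (Y : ℤ → Bool) (k : ℕ) (a : ℤ) : ℝ :=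
  ∑ j ∈ range (k + 1), ∑ i ∈ range (2 ^ k), en Y j (a + i)

omit hg in
lemma en_nonneg (Y : ℤ → Bool) (j : ℕ) (b : ℤ) : 0 ≤ en Y j b := by
  unfold en; split_ifs <;> positivity

omit hg in
lemma EE_nonneg (Y : ℤ → Bool) (k : ℕ) (a : ℤ) : 0 ≤ EE Y k a :=
  sum_nonneg fun _ _ => sum_nonneg fun _ _ => en_nonneg _ _ _

omit hg in
lemma split (u : ℤ → ℝ) (k : ℕ) (a : ℤ) : ∑ i ∈ range (2 ^ (k + 1)), u (a + i)
    = ∑ i ∈ range (2 ^ k), u (a + i) + ∑ i ∈ range (2 ^ k), u (a + 2 ^ k + i) := by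
  rw [pow_succ, mul_two, sum_range_add]
  simp [add_assoc]

lemma tele {u : ℤ → ℝ} {c a m : ℤ} {c' : ℝ} (n : ℕ)
    (h : ∀ i : ℕ, i < n → u (a + i) - c' = g (m + i + 1) - g (m + i)) :
    ∑ i ∈ range n, (u (a + i) - c') = g (m + n) - g m := by
  induction n with
  | zero => simp
  | succ n ih =>
    rw [sum_range_succ, ih fun i hi => h i (by omega), h n (by omega)]
    push_cast; rw [add_assoc]; ring

lemma err {F : (ℤ → Bool) → ℝ} {r : ℕ} (hF : ∀ X Y, (∀ j : ℤ, -r ≤ j → j ≤ r → X j = Y j) → F X = F Y)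
    {c B C1 : ℝ} (hB : ∀ X, |F X - c| ≤ B) (hc : ∀ i, (F fun j => X0 (i + j)) = c + g (i + 1) - g i)
    (h1 : 2 * C ≤ C1) (h2 : (r + 1) * ((r + 1) * B + C) ≤ C1) (Y : ℤ → Bool) (k : ℕ) :
    ∀ a : ℤ, |∑ i ∈ range (2 ^ k), ((F fun j => Y (a + i + j)) - c)
      - (g (pos Y (a + 2 ^ k) k) - g (pos Y a k))| ≤ C1 / 2 ^ k + 8 * C1 * EE Y k a := by
  have c0 := C0 hg
  have B0 : 0 ≤ B := (abs_nonneg _).trans (hB Y)
  have c1 : 0 ≤ C1 := by linarith
  have small : ∀ (k : ℕ) (a : ℤ), 2 ^ k ≤ r + 1 →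
      |∑ i ∈ range (2 ^ k), ((F fun j => Y (a + i + j)) - c)
      - (g (pos Y (a + 2 ^ k) k) - g (pos Y a k))| ≤ C1 / 2 ^ k := by
    intro k a hk
    have hk' : (2 : ℝ) ^ k ≤ r + 1 := by exact_mod_cast hk
    have e1 : |∑ i ∈ range (2 ^ k), ((F fun j => Y (a + i + j)) - c)| ≤ (r + 1) * B := by
      refine (abs_sum_le_sum_abs _ _).trans ((sum_le_card_nsmul _ _ B fun i _ => hB _).trans ?_)
      simp only [card_range, nsmul_eq_mul]; push_cast; gcongr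
    refine (abs_sub _ _).trans ((add_le_add e1 (osc hg _ _)).trans ?_)
    rw [le_div_iff₀ (by positivity)]
    refine le_trans ?_ h2
    rw [mul_comm]; gcongr
  have leg : ∀ (k : ℕ) (a : ℤ), Leg Y (a - 2 ^ k) (a + 2 * 2 ^ k) →
      |∑ i ∈ range (2 ^ k), ((F fun j => Y (a + i + j)) - c)
      - (g (pos Y (a + 2 ^ k) k) - g (pos Y a k))| ≤ C1 / 2 ^ k := by
    intro k a ⟨m, hm⟩
    rcases le_or_gt (2 ^ k) (r + 1) with hk | hk
    · exact small k a hk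
    have hk' : (r : ℤ) + 1 < 2 ^ k := by exact_mod_cast hk
    rw [tele hg (c := 0) (u := fun x => F fun j => Y (x + j)) (m := a + m) (2 ^ k) fun i hi => by
      have hi' : (i : ℤ) < 2 ^ k := by exact_mod_cast hi
      rw [hF _ (fun j => X0 (a + m + i + j)) fun j j1 j2 => by
        rw [hm _ (by omega) (by omega)]; congr 1; ring, hc]
      ring]
    have e1 := close hg (Y := Y) (x := a) (m := a + m) (k := k) fun l l1 l2 => by
      rw [hm _ (by omega) (by omega)]; congr 1; ring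
    have e2 := close hg (Y := Y) (x := a + 2 ^ k) (m := a + m + 2 ^ k) (k := k) fun l l1 l2 => by
      rw [hm _ (by omega) (by omega)]; congr 1; ring
    have e3 : 2 * (C / 2 ^ k) ≤ C1 / 2 ^ k := by
      rw [← mul_div_assoc]; gcongr
    push_cast
    rw [abs_le] at e1 e2 ⊢
    constructor <;> linarith [e1.1, e1.2, e2.1, e2.2]
  induction k with
  | zero =>
    intro a
    refine (small 0 a (by simp)).trans (le_add_of_nonneg_right ?_)
    have := EE_nonneg Y 0 a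
    positivity
  | succ k ih =>
    intro a
    by_cases h : Leg Y (a - 2 ^ (k + 1)) (a + 2 * 2 ^ (k + 1))
    · refine (leg _ a h).trans (le_add_of_nonneg_right ?_)
      have := EE_nonneg Y (k + 1) a
      positivity
    have e1 := ih a
    have e2 := ih (a + 2 ^ k)
    have e3 := pos_step hg Y a k
    have e4 := pos_step hg Y (a + 2 ^ (k + 1)) k
    have e5 : EE Y (k + 1) a = EE Y k a + EE Y k (a + 2 ^ k) + 1 / 2 ^ (k + 1) := by
      unfold EE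
      rw [sum_range_succ, ← sum_add_distrib]
      congr 1
      · exact sum_congr rfl fun j _ => split (en Y j) k a
      · rw [sum_congr rfl (g := fun _ => 1 / 4 ^ (k + 1)) fun i hi => by
          have hi' : (i : ℤ) < 2 ^ (k + 1) := by exact_mod_cast mem_range.1 hi
          exact if_neg fun hl => h (hl.mono (by omega) (by omega))]
        simp only [sum_const, card_range, nsmul_eq_mul]
        push_cast
        rw [show (4 : ℝ) = 2 * 2 by norm_num, mul_pow]; field_simp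
    rw [split (fun x => (F fun j => Y (x + j)) - c) k a, e5]
    rw [show a + 2 ^ k + 2 ^ k = a + 2 ^ (k + 1) by ring] at e2
    have e6 : 2 * (C / 2 ^ k) ≤ C1 / 2 ^ k := by
      rw [← mul_div_assoc]; gcongr
    have e7 : 8 * C1 * (1 / 2 ^ (k + 1)) = 4 * (C1 / 2 ^ k) := by rw [pow_succ]; field_simp; ring
    have e8 : 0 ≤ C1 / 2 ^ (k + 1) := by positivity
    have e9 : 0 ≤ C1 / 2 ^ k := by positivity
    rw [abs_le] at e1 e2 e3 e4 ⊢
    constructor <;> nlinarith [e1.1, e1.2, e2.1, e2.2, e3.1, e3.2, e4.1, e4.2]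

omit hg in
lemma bdd (Λ : Finset ℤ) (F : (ℤ → Bool) → ℝ) (hF : ∀ X Y, (∀ i ∈ Λ, X i = Y i) → F X = F Y) :
    ∃ B, ∀ X, |F X| ≤ B := by
  obtain ⟨B, hB⟩ := (Set.finite_range fun p : Λ → Bool =>
    |F fun j => if h : j ∈ Λ then p ⟨j, h⟩ else false|).bddAbove
  refine ⟨B, fun X => le_trans (le_of_eq ?_) (hB ⟨fun l => X l, rfl⟩)⟩
  rw [hF X (fun j => if h : j ∈ Λ then X j else false) fun j hj => by simp [hj]]

omit hg in
/-- Strict boundary condition. -/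
theorem sbc (Λ : Finset ℤ) (F : (ℤ → Bool) → ℝ) (hF : ∀ X Y, (∀ i ∈ Λ, X i = Y i) → F X = F Y) :
    ∃ C1, 0 ≤ C1 ∧ ∀ (X Y : ℤ → Bool) (K : ℕ), (∀ a b, Leg X a b) →
      (∀ i : ℤ, 2 ^ K ≤ i ∨ i < -2 ^ K → Y i = X i) →
      |∑ i ∈ range (2 ^ (K + 2)), ((F fun j => Y (-(2 * 2 ^ K) + i + j))
        - F fun j => X (-(2 * 2 ^ K) + i + j))|
        ≤ C1 / 2 ^ K + C1 * EE Y (K + 2) (-(2 * 2 ^ K)) := by
  obtain ⟨c, g, ⟨C, hg⟩, hc⟩ := local_cob Λ F hF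
  obtain ⟨B, hB⟩ := bdd Λ F hF
  obtain ⟨r, hr⟩ : ∃ r : ℕ, ∀ j ∈ Λ, -(r : ℤ) ≤ j ∧ j ≤ r :=
    ⟨Λ.sup Int.natAbs, fun j hj => by
      have := le_sup (f := Int.natAbs) hj
      omega⟩
  have c0 := C0 hg
  obtain ⟨C1, h1, h2⟩ : ∃ C1, 2 * C ≤ C1 ∧ (r + 1) * ((r + 1) * (B + |c|) + C) ≤ C1 :=
    ⟨max _ _, le_max_left _ _, le_max_right _ _⟩
  have E := err hg (r := r) (F := F) (fun X Y h => hF X Y fun j hj => h j (hr j hj).1 (hr j hj).2)
    (B := B + |c|) (fun X => (abs_sub _ _).trans (by linarith [hB X])) hc h1 h2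
  refine ⟨8 * C1, by linarith, fun X Y K hX hY => ?_⟩
  have e1 := E Y (K + 2) (-(2 * 2 ^ K))
  have e2 := E X (K + 2) (-(2 * 2 ^ K))
  have e3 : EE X (K + 2) (-(2 * 2 ^ K)) = 0 :=
    sum_eq_zero fun j _ => sum_eq_zero fun i _ => if_pos (hX _ _)
  have p : (0 : ℤ) < 2 ^ K := by positivity
  have e4 : ∀ x : ℤ, x = 2 * 2 ^ K ∨ x = -(2 * 2 ^ K) →
      |g (pos X x (K + 2)) - g (pos Y x (K + 2))| ≤ 5 * (C / 2 ^ K) := by
    intro x hx
    have a1 := close hg (Y := Y) (x := x) (m := pos X x K) (k := K) fun l l1 l2 => by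
      rw [hY _ (by omega), pos_spec (hX _ _) l l1 l2]
    have a2 := pos_step hg X x K
    have a3 := pos_step hg X x (K + 1)
    have a4 := pos_step hg Y x K
    have a5 := pos_step hg Y x (K + 1)
    have a6 : C / 2 ^ (K + 1) ≤ C / 2 ^ K := by gcongr <;> norm_num
    rw [abs_le] at a1 a2 a3 a4 a5 ⊢
    constructor <;> linarith [a1.1, a1.2, a2.1, a2.2, a3.1, a3.2, a4.1, a4.2, a5.1, a5.2]
  have e5 := e4 _ (Or.inl rfl)
  have e6 := e4 _ (Or.inr rfl)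
  rw [show -(2 * 2 ^ K) + (2 : ℤ) ^ (K + 2) = 2 * 2 ^ K by ring] at e1 e2
  rw [e3] at e2
  have e7 : C1 / 2 ^ (K + 2) ≤ C1 / 2 ^ K := by gcongr <;> linarith
  have e8 : 2 * (C / 2 ^ K) ≤ C1 / 2 ^ K := by rw [← mul_div_assoc]; gcongr
  have e9 : 0 ≤ C1 / 2 ^ K := by have : 0 ≤ C1 := by linarith
                                 positivity
  rw [sum_sub_distrib] at e1 e2 ⊢
  rw [mul_div_assoc]
  rw [abs_le] at e1 e2 e5 e6 ⊢
  constructor <;> linarith [e1.1, e1.2, e2.1, e2.2, e5.1, e5.2, e6.1, e6.2]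

end

end Pool.Agent.H.MP_084e97_mp
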