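import Mathlib
import Pool.Agent.H.MP_084e97_mp.B
namespace Pool.Agent.H.MP_084e97_mp

open Finset Filter Topology MeasureTheory

noncomputable section

open Classical

def T (a : ℤ) (X : ℤ → Bool) : ℤ → Bool := fun i => X (i - a)

def IsInt (Φ : Finset ℤ → (ℤ → Bool) → ℝ) : Prop :=
  (∀ Λ X Y, (∀ i ∈ Λ, X i = Y i) → Φ Λ X = Φ Λ Y) ∧
    ∀ Λ a X, Φ (Λ.image (· + a)) (T a X) = Φ Λ X

def FinR (Φ : Finset ℤ → (ℤ → Bool) → ℝ) : Prop :=
  ∃ r : ℤ, ∀ Λ, (∃ i ∈ Λ, ∃ j ∈ Λ, r < j - i) → ∀ X, Φ Λ X = 0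

def iv (p : ℕ × ℤ) : Finset ℤ := Ico (p.2 - 2 * 2 ^ p.1) (p.2 + 2 * 2 ^ p.1)

lemma iv_inj : Function.Injective iv := by
  rintro ⟨k, b⟩ ⟨k', b'⟩ h
  have p : (0 : ℤ) < 2 ^ k := by positivity
  have h1 : (iv (k, b) : Set ℤ) = iv (k', b') := by rw [h]
  simp only [iv, coe_Ico] at h1
  rw [Set.Ico_eq_Ico_iff (Or.inl (by omega))] at h1
  have h2 : (2 : ℤ) ^ k = 2 ^ k' := by omega
  have h3 : k = k' := pow_right_injective₀ (by norm_num) (by norm_num) h2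
  rw [h3, show b = b' by omega]

def PP (Λ : Finset ℤ) (Y : ℤ → Bool) : ℝ := Function.extend iv (fun p => en Y p.1 p.2) 0 Λ
def nr (Λ : Finset ℤ) : ℝ := Function.extend iv (fun p => 1 / 4 ^ p.1) 0 Λ

lemma PP_iv (p : ℕ × ℤ) (Y : ℤ → Bool) : PP (iv p) Y = en Y p.1 p.2 := iv_inj.extend_apply _ _ _
lemma nr_iv (p : ℕ × ℤ) : nr (iv p) = 1 / 4 ^ p.1 := iv_inj.extend_apply _ _ _
lemma PP_no {Λ : Finset ℤ} (h : ¬ ∃ p, iv p = Λ) (Y : ℤ → Bool) : PP Λ Y = 0 :=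
  Function.extend_apply' _ _ _ h
lemma nr_no {Λ : Finset ℤ} (h : ¬ ∃ p, iv p = Λ) : nr Λ = 0 := Function.extend_apply' _ _ _ h

lemma PP_bd (Λ : Finset ℤ) (Y : ℤ → Bool) : 0 ≤ PP Λ Y ∧ PP Λ Y ≤ nr Λ := by
  by_cases h : ∃ p, iv p = Λ
  · obtain ⟨p, rfl⟩ := h
    rw [PP_iv, nr_iv]
    refine ⟨en_nonneg _ _ _, ?_⟩
    unfold en; split_ifs
    · positivity
    · rfl
  · simp [PP_no h, nr_no h]

lemma leg_congr {X Y : ℤ → Bool} {a b : ℤ} (h : ∀ i, a ≤ i → i < b → X i = Y i) :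
    Leg X a b ↔ Leg Y a b :=
  exists_congr fun _ => forall₃_congr fun i h1 h2 => by rw [h i h1 h2]

lemma en_congr {X Y : ℤ → Bool} (k : ℕ) (b : ℤ) (h : ∀ i ∈ iv (k, b), X i = Y i) :
    en X k b = en Y k b := by
  unfold en
  rw [leg_congr fun i h1 h2 => h i (mem_Ico.2 ⟨h1, h2⟩)]

lemma leg_T (X : ℤ → Bool) (c a b : ℤ) : Leg (T c X) (a + c) (b + c) ↔ Leg X a b := by
  constructor
  · rintro ⟨m, hm⟩
    refine ⟨c + m, fun i h1 h2 => ?_⟩
    simpa [T, add_assoc] using hm (i + c) (by omega) (by omega)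
  · rintro ⟨m, hm⟩
    refine ⟨m - c, fun i h1 h2 => ?_⟩
    rw [T, hm (i - c) (by omega) (by omega)]; congr 1; ring

lemma en_T (X : ℤ → Bool) (c : ℤ) (k : ℕ) (b : ℤ) : en (T c X) k (b + c) = en X k b := by
  unfold en
  rw [← leg_T X c, add_sub_right_comm, add_right_comm]

lemma iv_im (p : ℕ × ℤ) (a : ℤ) : (iv p).image (· + a) = iv (p.1, p.2 + a) := by
  simp only [iv, image_add_right_Ico]; congr 1 <;> ring

lemma PP_int : IsInt PP := by
  refine ⟨fun Λ X Y h => ?_, fun Λ a X => ?_⟩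
  · by_cases hp : ∃ p, iv p = Λ
    · obtain ⟨p, rfl⟩ := hp
      rw [PP_iv, PP_iv, en_congr p.1 p.2 h]
    · rw [PP_no hp, PP_no hp]
  · by_cases hp : ∃ p, iv p = Λ
    · obtain ⟨p, rfl⟩ := hp
      rw [iv_im, PP_iv, PP_iv, en_T]
    · rw [PP_no hp, PP_no]
      rintro ⟨p, h⟩
      refine hp ⟨(p.1, p.2 + -a), ?_⟩
      rw [← iv_im, h, image_image]
      simp [Function.comp_def]

lemma nr_sum (d : ℤ) : HasSum (fun Λ => if d ∈ Λ then nr Λ else 0) 8 := by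
  rw [← iv_inj.hasSum_iff fun Λ h => by simp [nr_no h]]
  have fib : ∀ k : ℕ, HasSum (fun b : ℤ => ((fun Λ => if d ∈ Λ then nr Λ else 0) ∘ iv) (k, b))
      (4 * (1 / 2) ^ k) := by
    intro k
    have := hasSum_sum_of_ne_finset_zero (L := SummationFilter.unconditional ℤ)
      (f := fun b : ℤ => ((fun Λ => if d ∈ Λ then nr Λ else 0) ∘ iv) (k, b))
      (s := Ioc (d - 2 * 2 ^ k) (d + 2 * 2 ^ k)) fun b hb => if_neg (by
        simp only [iv, mem_Ico, mem_Ioc] at hb ⊢; omega)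
    rw [sum_congr rfl (g := fun _ => 1 / 4 ^ k) fun b hb => by
      simp only [Function.comp, nr_iv]
      exact if_pos (by simp only [iv, mem_Ico, mem_Ioc] at hb ⊢; omega)] at this
    convert this using 1
    have e : (d + 2 * 2 ^ k - (d - 2 * 2 ^ k)).toNat = 4 * 2 ^ k := by
      rw [show d + 2 * 2 ^ k - (d - 2 * 2 ^ k) = ((4 * 2 ^ k : ℕ) : ℤ) by push_cast; ring]; rfl
    simp only [sum_const, Int.card_Ioc, e, nsmul_eq_mul]
    push_cast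
    rw [show (4 : ℝ) ^ k = 2 ^ k * 2 ^ k by rw [← mul_pow]; norm_num, one_div_pow]; field_simp
  have h4 := hasSum_geometric_two.mul_left 4
  have hs : Summable ((fun Λ => if d ∈ Λ then nr Λ else 0) ∘ iv) := by
    rw [summable_prod_of_nonneg fun p => by
      simp only [Function.comp, nr_iv, Pi.zero_apply]; split_ifs <;> positivity]
    exact ⟨fun k => (fib k).summable, by simpa only [(fib _).tsum_eq] using h4.summable⟩
  have := (hs.hasSum.prod_fiberwise fib).unique h4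
  convert hs.hasSum using 1
  rw [this]; norm_num

lemma PP_summ : Summable fun Λ : {Λ : Finset ℤ // 0 ∈ Λ} => ⨆ X, |PP Λ X| := by
  refine Summable.of_nonneg_of_le (fun Λ => Real.iSup_nonneg fun _ => abs_nonneg _) (fun Λ => ?_)
    ((nr_sum 0).summable.subtype {Λ | 0 ∈ Λ})
  simp only [Function.comp, if_pos Λ.2]
  exact Real.iSup_le (fun X => by rw [abs_of_nonneg (PP_bd _ X).1]; exact (PP_bd _ X).2)
    ((PP_bd _ X0).1.trans (PP_bd _ X0).2)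

lemma nr_nonneg (Λ : Finset ℤ) : 0 ≤ nr Λ := (PP_bd _ X0).1.trans (PP_bd _ X0).2

lemma diff_summ {X Y : ℤ → Bool} (h : {i | Y i ≠ X i}.Finite) :
    Summable fun Λ => PP Λ Y - PP Λ X := by
  refine Summable.of_norm_bounded (summable_sum (s := h.toFinset) fun d _ => (nr_sum d).summable)
    fun Λ => ?_
  have nn : ∀ d ∈ h.toFinset, 0 ≤ if d ∈ Λ then nr Λ else 0 := fun d _ => by
    split_ifs
    · exact nr_nonneg _
    · rfl
  by_cases hd : ∃ d ∈ Λ, Y d ≠ X d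
  · obtain ⟨d, h1, h2⟩ := hd
    refine le_trans ?_ (single_le_sum nn (h.mem_toFinset.2 h2))
    rw [if_pos h1, Real.norm_eq_abs, abs_le]
    constructor <;> linarith [PP_bd Λ X, PP_bd Λ Y]
  · push Not at hd
    rw [PP_int.1 Λ Y X hd, sub_self, norm_zero]
    exact sum_nonneg nn

lemma PP_leg {X : ℤ → Bool} (hX : ∀ a b, Leg X a b) (Λ : Finset ℤ) : PP Λ X = 0 := by
  by_cases hp : ∃ p, iv p = Λ
  · obtain ⟨p, rfl⟩ := hp
    rw [PP_iv]; exact if_pos (hX _ _)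
  · exact PP_no hp _

lemma EE_le {X Y : ℤ → Bool} (hX : ∀ a b, Leg X a b) (h : {i | Y i ≠ X i}.Finite) (k : ℕ) (a : ℤ) :
    EE Y k a ≤ ∑' Λ, (PP Λ Y - PP Λ X) := by
  have hi : Function.Injective fun p : ℕ × ℕ => iv (p.1, a + p.2) := fun p p' hp => by
    have := iv_inj hp
    simp only [Prod.mk.injEq] at this
    exact Prod.ext this.1 (by omega)
  refine le_trans (le_of_eq ?_) ((diff_summ h).sum_le_tsum
    ((range (k + 1) ×ˢ range (2 ^ k)).image fun p : ℕ × ℕ => iv (p.1, a + p.2)) fun Λ _ => by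
      rw [PP_leg hX, sub_zero]; exact (PP_bd _ _).1)
  rw [sum_image hi.injOn, sum_product]
  simp only [PP_leg hX, sub_zero, PP_iv, EE]

lemma fin_sum {Φ : Finset ℤ → (ℤ → Bool) → ℝ} (hΦ : IsInt Φ) {r : ℤ}
    (hr : ∀ Λ, (∃ i ∈ Λ, ∃ j ∈ Λ, r < j - i) → ∀ X, Φ Λ X = 0) {X Y : ℤ → Bool} {a : ℤ} {N : ℕ}
    (h : ∀ i, i < a + r ∨ a + N ≤ i → Y i = X i) :
    HasSum (fun Λ => Φ Λ Y - Φ Λ X) (∑ i ∈ range N,
      ((∑ Λ ∈ (Icc 0 r).powerset with 0 ∈ Λ, Φ Λ fun j => Y (a + i + j))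
        - ∑ Λ ∈ (Icc 0 r).powerset with 0 ∈ Λ, Φ Λ fun j => X (a + i + j))) := by
  have e : ∀ (Λ : Finset ℤ) (c : ℤ) (Z : ℤ → Bool), Φ (Λ.image (· + c)) Z = Φ Λ fun j => Z (c + j) := by
    intro Λ c Z
    rw [← hΦ.2 Λ c]; congr 1; funext i; simp [T]
  obtain ⟨S, hS⟩ : ∃ S, S = {Λ ∈ (Icc 0 r).powerset | 0 ∈ Λ} := ⟨_, rfl⟩
  have mS : ∀ Λ, Λ ∈ S ↔ (∀ j ∈ Λ, 0 ≤ j ∧ j ≤ r) ∧ 0 ∈ Λ := fun Λ => by
    simp [hS, subset_iff]
  rw [← hS]
  have := hasSum_sum_of_ne_finset_zero (L := SummationFilter.unconditional _)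
    (f := fun Λ => Φ Λ Y - Φ Λ X)
    (s := (range N ×ˢ S).image fun p : ℕ × Finset ℤ => p.2.image (· + (a + p.1))) fun Λ hΛ => by
      by_contra hc
      have h1 : ∃ d ∈ Λ, Y d ≠ X d := by
        by_contra h1
        push Not at h1
        exact hc (by rw [hΦ.1 Λ Y X h1, sub_self])
      have h2 : ∀ i ∈ Λ, ∀ j ∈ Λ, j - i ≤ r := by
        by_contra h2
        push Not at h2
        exact hc (by rw [hr Λ h2, hr Λ h2, sub_self])
      obtain ⟨d, h3, h4⟩ := h1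
      obtain ⟨m, h5, h6⟩ := exists_min_image Λ id ⟨d, h3⟩
      have h7 : ¬ (d < a + r ∨ a + N ≤ d) := fun h7 => h4 (h d h7)
      have h8 := h2 m h5 d h3
      have h9 := h6 d h3
      simp only [id] at h6 h9
      refine hΛ (mem_image.2 ⟨((m - a).toNat, Λ.image (· - m)), mem_product.2 ⟨mem_range.2 (by omega),
        (mS _).2 ⟨fun j hj => ?_, mem_image.2 ⟨m, h5, sub_self _⟩⟩⟩, ?_⟩)
      · obtain ⟨i, hi, rfl⟩ := mem_image.1 hj
        exact ⟨by linarith [h6 i hi], h2 m h5 i hi⟩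
      · rw [image_image, show a + ((m - a).toNat : ℤ) = m by omega]
        simp [Function.comp_def]
  convert this using 1
  rw [sum_image, sum_product]
  · simp only [e, sum_sub_distrib]
  · rintro ⟨i, Λ⟩ hp ⟨i', Λ'⟩ hp' hh
    simp only [coe_product, Set.mem_prod, mem_coe, mS] at hp hp' hh
    obtain ⟨j, hj, ej⟩ := mem_image.1 (hh ▸ mem_image_of_mem (· + (a + i)) hp.2.2)
    obtain ⟨j', hj', ej'⟩ := mem_image.1 (hh.symm ▸ mem_image_of_mem (· + (a + i')) hp'.2.2)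
    have := (hp'.2.1 j hj).1
    have := (hp.2.1 j' hj').1
    obtain rfl : i = i' := by omega
    rw [image_injective (add_left_injective _) hh]

lemma stable {Φ : Finset ℤ → (ℤ → Bool) → ℝ} (hΦ : IsInt Φ) (hr : FinR Φ) : ∃ ε₀ : ℝ, 0 < ε₀ ∧
    ∀ ε, 0 < ε → ε < ε₀ → ∀ X Y, (∀ a b, Leg X a b) → {i | Y i ≠ X i}.Finite →
      0 ≤ ∑' Λ, ((PP Λ Y + ε * Φ Λ Y) - (PP Λ X + ε * Φ Λ X)) := by
  obtain ⟨r, hr⟩ := hr
  obtain ⟨C1, c0, hC⟩ := sbc (Icc 0 r) (fun Z => ∑ Λ ∈ (Icc 0 r).powerset with 0 ∈ Λ, Φ Λ Z)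
    fun X Y h => sum_congr rfl fun Λ hΛ => hΦ.1 _ _ _ fun i hi =>
      h i (mem_powerset.1 (mem_filter.1 hΛ).1 hi)
  refine ⟨1 / (C1 + 1), by positivity, fun ε h0 h1 X Y hX hY => ?_⟩
  obtain ⟨R, hR⟩ : ∃ R : ℕ, ∀ i : ℤ, R ≤ i ∨ i < -R → Y i = X i :=
    ⟨hY.toFinset.sup Int.natAbs + 1, fun i hi => by
      by_contra hc
      have := le_sup (f := Int.natAbs) (hY.mem_toFinset.2 hc)
      omega⟩
  have key : ∀ K : ℕ, R + r.natAbs ≤ K → Summable (fun Λ => Φ Λ Y - Φ Λ X) ∧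
      |∑' Λ, (Φ Λ Y - Φ Λ X)| ≤ C1 / 2 ^ K + C1 * ∑' Λ, (PP Λ Y - PP Λ X) := by
    intro K hK
    have h2 : (K : ℤ) < 2 ^ K := by exact_mod_cast Nat.lt_two_pow_self
    have hs := fin_sum hΦ hr (X := X) (Y := Y) (a := -(2 * 2 ^ K)) (N := 2 ^ (K + 2))
      fun i hi => hR i (by push_cast at hi; rw [pow_add] at hi; omega)
    refine ⟨hs.summable, ?_⟩
    rw [hs.tsum_eq]
    refine (hC X Y K hX fun i hi => hR i (by omega)).trans ?_
    gcongr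
    exact EE_le hX hY _ _
  have h3 : |∑' Λ, (Φ Λ Y - Φ Λ X)| ≤ 0 + C1 * ∑' Λ, (PP Λ Y - PP Λ X) :=
    ge_of_tendsto (((tendsto_pow_atTop_atTop_of_one_lt one_lt_two).const_div_atTop C1).add_const _)
      ((eventually_ge_atTop _).mono fun K hK => (key K hK).2)
  have h4 : 0 ≤ ∑' Λ, (PP Λ Y - PP Λ X) := (EE_nonneg _ _ _).trans (EE_le hX hY 0 0)
  rw [tsum_congr (g := fun Λ => (PP Λ Y - PP Λ X) + ε * (Φ Λ Y - Φ Λ X)) fun Λ => by ring,
    (diff_summ hY).tsum_add ((key _ le_rfl).1.mul_left ε), tsum_mul_left]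
  rw [lt_div_iff₀ (by positivity)] at h1
  have := (abs_le.1 h3).1
  nlinarith

lemma gs_bound {X : ℤ → Bool}
    (hX : ∀ Y, {i | Y i ≠ X i}.Finite → 0 ≤ ∑' Λ, (PP Λ Y - PP Λ X)) (k : ℕ) (b : ℤ) (L : ℕ) :
    ∑ i ∈ range L, en X k (b + i) ≤ 16 := by
  obtain ⟨lo, hlo⟩ : ∃ lo, lo = b - 2 * 2 ^ k := ⟨_, rfl⟩
  obtain ⟨hi, hhi⟩ : ∃ hi, hi = b + L + 2 * 2 ^ k := ⟨_, rfl⟩
  obtain ⟨Y, hY⟩ : ∃ Y : ℤ → Bool, Y = fun i => if lo ≤ i ∧ i < hi then X0 i else X i := ⟨_, rfl⟩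
  have hf : {i | Y i ≠ X i}.Finite := (Set.finite_Ico lo hi).subset fun i h => by
    by_contra hc
    exact h (by rw [hY]; exact if_neg hc)
  obtain ⟨S, hS⟩ : ∃ S, S = (range L).image fun i : ℕ => iv (k, b + i) := ⟨_, rfl⟩
  have h1 : HasSum (fun Λ => if Λ ∈ S then PP Λ X else 0) (∑ i ∈ range L, en X k (b + i)) := by
    have := hasSum_sum_of_ne_finset_zero (L := SummationFilter.unconditional _)
      (f := fun Λ => if Λ ∈ S then PP Λ X else 0) (s := S) fun Λ h => if_neg h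
    convert this using 1
    rw [sum_congr rfl (g := fun Λ => PP Λ X) fun Λ h => if_pos h, hS, sum_image fun i _ j _ h => by
      have := iv_inj h
      simp only [Prod.mk.injEq] at this; omega]
    simp only [PP_iv]
  have h2 := ((nr_sum lo).add (nr_sum (hi - 1))).sub h1
  have h3 := hasSum_le (fun Λ => ?_) (diff_summ hf).hasSum h2
  · linarith [hX Y hf]
  have n1 : 0 ≤ if lo ∈ Λ then nr Λ else 0 := by
    split_ifs
    · exact nr_nonneg _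
    · rfl
  have n2 : 0 ≤ if hi - 1 ∈ Λ then nr Λ else 0 := by
    split_ifs
    · exact nr_nonneg _
    · rfl
  have n3 : (if Λ ∈ S then PP Λ X else 0) ≤ PP Λ X := by
    split_ifs
    · rfl
    · exact (PP_bd _ _).1
  have n4 := PP_bd Λ Y
  by_cases c1 : lo ∈ Λ
  · rw [if_pos c1]; linarith
  by_cases c2 : hi - 1 ∈ Λ
  · rw [if_pos c2]; linarith
  by_cases hp : ∃ p, iv p = Λ
  · obtain ⟨⟨j, c⟩, rfl⟩ := hp
    simp only [iv, mem_Ico] at c1 c2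
    have p1 : (0 : ℤ) < 2 ^ j := by positivity
    have p2 : (0 : ℤ) < 2 ^ k := by positivity
    by_cases c3 : lo ≤ c - 2 * 2 ^ j ∧ c + 2 * 2 ^ j ≤ hi
    · have : PP (iv (j, c)) Y = 0 := by
        rw [PP_iv]
        exact if_pos ⟨0, fun i i1 i2 => by
          rw [hY, add_zero]; exact if_pos (by simp only at i1 i2; omega)⟩
      linarith
    · have e1 : PP (iv (j, c)) Y = PP (iv (j, c)) X := PP_int.1 _ _ _ fun i hi => by
        simp only [iv, mem_Ico] at hi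
        rw [hY]; exact if_neg (by omega)
      have e2 : iv (j, c) ∉ S := by
        rw [hS, mem_image]
        rintro ⟨i, i1, i2⟩
        have := iv_inj i2
        simp only [Prod.mk.injEq] at this
        obtain ⟨rfl, rfl⟩ := this
        have := mem_range.1 i1
        omega
      rw [if_neg e2]; linarith
  · rw [PP_no hp] at n3
    rw [PP_no hp, PP_no hp]
    have : (if Λ ∈ S then (0 : ℝ) else 0) = 0 := ite_self _
    linarith

end

end Pool.Agent.H.MP_084e97_mp
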