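import Mathlib
import Pool.Agent.H.MP_084e97_mp.C
namespace Pool.Agent.H.MP_084e97_mp

open Finset Filter Topology MeasureTheory

noncomputable section

open Classical

def Inv (μ : Measure (ℤ → Bool)) : Prop := IsProbabilityMeasure μ ∧ ∀ a, μ.map (T a) = μ

def GS (Φ : Finset ℤ → (ℤ → Bool) → ℝ) (μ : Measure (ℤ → Bool)) : Prop :=
  Inv μ ∧ ∀ᵐ X ∂μ, ∀ Y, {i | Y i ≠ X i}.Finite → 0 ≤ ∑' Λ, (Φ Λ Y - Φ Λ X)

lemma T_meas (a : ℤ) : Measurable (T a) := measurable_pi_lambda _ fun _ => measurable_pi_apply _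

lemma clos (X : ℤ → Bool) : X ∈ closure (Set.range fun a => T a X0) ↔ ∀ a b, Leg X a b := by
  constructor
  · intro h a b
    have o : IsOpen {Z : ℤ → Bool | ∀ i ∈ Ico a b, Z i = X i} := by
      simp only [Set.ofPred_forall]
      exact isOpen_biInter_finset fun i _ =>
        (isOpen_discrete {X i}).preimage (continuous_apply (A := fun _ => Bool) i)
    obtain ⟨_, h1, m, rfl⟩ := mem_closure_iff.1 h _ o fun _ _ => rfl
    exact ⟨-m, fun i i1 i2 => (h1 i (mem_Ico.2 ⟨i1, i2⟩)).symm⟩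
  · intro h
    choose m hm using fun n : ℕ => h (-n) n
    refine mem_closure_of_tendsto (b := atTop) (f := fun n => T (-m n) X0) ?_
      (Eventually.of_forall fun n => ⟨_, rfl⟩)
    refine tendsto_pi_nhds.2 fun i => tendsto_const_nhds.congr' ?_
    filter_upwards [eventually_gt_atTop i.natAbs] with n hn
    rw [hm n i (by omega) (by omega)]; simp [T]

lemma loc_meas (Λ : Finset ℤ) (F : (ℤ → Bool) → ℝ) (hF : ∀ X Y, (∀ i ∈ Λ, X i = Y i) → F X = F Y) :
    Measurable F := by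
  have : F = (fun p : Λ → Bool => F fun j => if h : j ∈ Λ then p ⟨j, h⟩ else false) ∘ Λ.restrict :=
    funext fun X => hF _ _ fun j hj => by simp [hj]
  rw [this]
  exact Measurable.of_discrete.comp (Finset.measurable_restrict Λ)

lemma avg {μ : Measure (ℤ → Bool)} (hμ : Inv μ) (Λ : Finset ℤ) (F : (ℤ → Bool) → ℝ)
    (hF : ∀ X Y, (∀ i ∈ Λ, X i = Y i) → F X = F Y) (c C : ℝ)
    (h : ∀ L : ℕ, ∀ᵐ X ∂μ, |∑ i ∈ range L, (F (T (-i) X) - c)| ≤ C) :
    Integrable F μ ∧ ∫ X, F X ∂μ = c := by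
  have := hμ.1
  have m := loc_meas Λ F hF
  obtain ⟨B, hB⟩ := bdd Λ F hF
  have i1 : ∀ a, Integrable (fun X => F (T a X)) μ := fun a =>
    Integrable.of_bound (m.comp (T_meas a)).aestronglyMeasurable B (ae_of_all _ fun X => hB _)
  have i2 : ∀ a, ∫ X, F (T a X) ∂μ = ∫ X, F X ∂μ := fun a => by
    rw [← integral_map (T_meas a).aemeasurable m.aestronglyMeasurable, hμ.2]
  refine ⟨Integrable.of_bound m.aestronglyMeasurable B (ae_of_all _ hB), ?_⟩
  have h1 : ∀ L : ℕ, L * |∫ X, F X ∂μ - c| ≤ C := by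
    intro L
    have := norm_integral_le_of_norm_le_const (μ := μ) (C := C)
      (f := fun X => ∑ i ∈ range L, (F (T (-i) X) - c)) (h L)
    rw [integral_finsetSum _ (f := fun (i : ℕ) X => F (T (-i) X) - c)
      fun i _ => (i1 _).sub (integrable_const c)] at this
    simp only [integral_sub (i1 _) (integrable_const c), i2] at this
    simpa [abs_mul, ← mul_sub] using this
  by_contra hc
  have h2 : 0 < |∫ X, F X ∂μ - c| := abs_pos.2 (sub_ne_zero.2 hc)
  obtain ⟨L, hL⟩ := exists_nat_gt (C / |∫ X, F X ∂μ - c|)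
  rw [div_lt_iff₀ h2] at hL
  linarith [h1 L]

lemma uniq {μ ν : Measure (ℤ → Bool)} (hμ : Inv μ) (hν : Inv ν) (h1 : ∀ᵐ X ∂μ, ∀ a b, Leg X a b)
    (h2 : ∀ᵐ X ∂ν, ∀ a b, Leg X a b) : μ = ν := by
  have := hμ.1
  have := hν.1
  refine ext_of_generate_finite _ generateFrom_measurableCylinders.symm
    isPiSystem_measurableCylinders (fun A hA => ?_) (by simp)
  have mA := MeasurableSet.of_mem_measurableCylinders hA
  obtain ⟨Λ, S, -, rfl⟩ := (mem_measurableCylinders _).1 hA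
  have hF : ∀ X Y : ℤ → Bool, (∀ i ∈ Λ, X i = Y i) →
      (cylinder Λ S).indicator (1 : (ℤ → Bool) → ℝ) X = (cylinder Λ S).indicator 1 Y := by
    intro X Y h
    have : Λ.restrict X = Λ.restrict Y := funext fun i => h i i.2
    simp [Set.indicator, mem_cylinder, this]
  obtain ⟨c, g, ⟨C, hg⟩, hc⟩ := local_cob Λ _ hF
  simp only at hc
  obtain ⟨r, hr⟩ : ∃ r : ℕ, ∀ j ∈ Λ, -(r : ℤ) ≤ j ∧ j ≤ r :=
    ⟨Λ.sup Int.natAbs, fun j hj => by
      have := le_sup (f := Int.natAbs) hj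
      omega⟩
  have key : ∀ (L : ℕ) (X : ℤ → Bool), (∀ a b, Leg X a b) →
      |∑ i ∈ range L, ((cylinder Λ S).indicator (1 : (ℤ → Bool) → ℝ) (T (-i) X) - c)| ≤ C := by
    intro L X hX
    obtain ⟨m, hm⟩ := hX (-r) (L + r)
    have := tele hg (c := 0) (a := 0) (m := m) (c' := c)
      (u := fun x => (cylinder Λ S).indicator (1 : (ℤ → Bool) → ℝ) (T (-x) X)) L fun i hi => by
        rw [hF _ (fun j => X0 (m + i + j)) fun j hj => by
          have := hr j hj
          rw [T, hm _ (by omega) (by omega)]; congr 1; ring, hc]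
        ring
    simp only [zero_add] at this
    rw [this]; exact osc hg _ _
  have e1 := (avg hμ Λ _ hF c C fun L => h1.mono (key L)).2
  have e2 := (avg hν Λ _ hF c C fun L => h2.mono (key L)).2
  rw [integral_indicator_one mA] at e1 e2
  exact (measureReal_eq_measureReal_iff (by simp) (by simp)).1 (e1.trans e2.symm)

lemma gs_leg {μ : Measure (ℤ → Bool)} (h : GS PP μ) : ∀ᵐ X ∂μ, ∀ a b, Leg X a b := by
  have key : ∀ (k : ℕ), ∀ᵐ X ∂μ, en X k 0 = 0 := by
    intro k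
    obtain ⟨i1, i2⟩ := avg h.1 (iv (k, 0)) (fun X => en X k 0) (fun X Y => en_congr k 0) 0 16
      fun L => h.2.mono fun X hX => by
        have := gs_bound hX k 0 L
        have e : ∀ i : ℕ, en (T (-i) X) k 0 - 0 = en X k (0 + i) := fun i => by
          rw [← en_T X (-i)]; simp
        simp only [e]
        rwa [abs_of_nonneg (sum_nonneg fun _ _ => en_nonneg _ _ _)]
    exact (integral_eq_zero_iff_of_nonneg (fun X => en_nonneg X k 0) i1).1 i2
  filter_upwards [ae_all_iff.2 key] with X hX a b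
  obtain ⟨k, hk⟩ : ∃ k, k = a.natAbs + b.natAbs := ⟨_, rfl⟩
  have h2 : (k : ℤ) < 2 ^ k := by exact_mod_cast Nat.lt_two_pow_self
  have h3 := hX k
  unfold en at h3
  split_ifs at h3 with h4
  · exact h4.mono (by omega) (by omega)
  · exact absurd h3 (by positivity)

def code (θ : UnitAddCircle) (n : ℤ) : Bool :=
  decide (ph ≤ (AddCircle.equivIco 1 0 (θ + ((n * ph : ℝ) : UnitAddCircle)) : ℝ))

lemma code_meas : Measurable code := by
  refine measurable_pi_lambda _ fun n => ?_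
  refine measurable_to_bool ?_
  simp only [code, Set.preimage, Set.mem_singleton_iff, decide_eq_true_eq]
  refine measurableSet_le measurable_const ?_
  exact measurable_subtype_coe.comp ((AddCircle.measurableEquivIco 1 0).measurable.comp
    (measurable_add_const _))

lemma code_leg (θ : UnitAddCircle) (a b : ℤ) : Leg (code θ) a b := by
  obtain ⟨t, rfl⟩ := QuotientAddGroup.mk_surjective θ
  have e : ∀ n : ℤ, code (t : UnitAddCircle) n = decide (ph ≤ Int.fract (t + n * ph)) := fun n => by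
    rw [code, ← AddCircle.coe_add, AddCircle.coe_equivIco_mk_apply]; simp
  have h1 : ∀ᶠ u in 𝓝[>] t, ∀ i ∈ Ico a b,
      (ph ≤ Int.fract (t + i * ph) ↔ ph ≤ Int.fract (u + i * ph)) := by
    refine (eventually_all_finset _).2 fun i _ => ?_
    have f0 := Int.fract_nonneg (t + i * ph)
    have f1 := Int.fract_lt_one (t + i * ph)
    have f2 : ∀ u, t < u → u < t + (1 - Int.fract (t + i * ph)) →
        Int.fract (u + i * ph) = Int.fract (t + i * ph) + (u - t) := by
      intro u u1 u2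
      rw [Int.fract_eq_iff]
      exact ⟨by linarith, by linarith, ⌊t + i * ph⌋, by rw [Int.fract]; ring⟩
    by_cases c : ph ≤ Int.fract (t + i * ph)
    · filter_upwards [Ioo_mem_nhdsGT (show t < t + (1 - Int.fract (t + i * ph)) by linarith)]
        with u hu
      rw [f2 u hu.1 hu.2]
      exact iff_of_true c (by linarith [hu.1])
    · filter_upwards [Ioo_mem_nhdsGT (show t < t + (ph - Int.fract (t + i * ph)) by linarith)]
        with u hu
      rw [f2 u hu.1 (by linarith [hu.2, ph1])]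
      exact iff_of_false c (by linarith [hu.2])
  obtain ⟨t', h2, h3⟩ := mem_nhdsGT_iff_exists_Ioo_subset.1 h1
  obtain ⟨u, h4, h5⟩ := (dense_addSubgroupClosure_pair_iff (a := ph) (b := 1)).2
    (by simpa using ph_irr) |>.exists_between (show t < t' from h2)
  obtain ⟨m, k, rfl⟩ := AddSubgroup.mem_closure_pair.1 h4
  refine ⟨m, fun i i1 i2 => ?_⟩
  rw [e, X0, St, decide_eq_decide, h3 h5 i (mem_Ico.2 ⟨i1, i2⟩),
    show m • ph + k • (1 : ℝ) + i * ph = ((i + m : ℤ) : ℝ) * ph + k by simp; ring,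
    Int.fract_add_intCast]

def rho : Measure (ℤ → Bool) := volume.map code

lemma rho_inv : Inv rho := by
  have : IsProbabilityMeasure (volume : Measure UnitAddCircle) := ⟨by simp⟩
  refine ⟨Measure.isProbabilityMeasure_map code_meas.aemeasurable, fun a => ?_⟩
  have e : T a ∘ code = code ∘ fun θ => θ + ((-(a * ph) : ℝ) : UnitAddCircle) := by
    funext θ i
    simp only [Function.comp, T, code, add_assoc, ← AddCircle.coe_add]
    congr 6
    push_cast; ring
  rw [rho, Measure.map_map (T_meas a) code_meas, e,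
    ← Measure.map_map code_meas (measurable_add_const _), (measurePreserving_add_right _ _).map_eq]

lemma rho_leg : ∀ᵐ X ∂rho, ∀ a b, Leg X a b := by
  simp only [← clos]
  exact (ae_map_iff code_meas.aemeasurable isClosed_closure.measurableSet).2
    (ae_of_all _ fun θ => (clos _).2 (code_leg θ))

theorem main : ∃ φ : ℝ, Irrational φ ∧ 0 < φ ∧ φ < 1 ∧ ∃ ρ : Measure (ℤ → Bool),
    (∀ ν, (Inv ν ∧ ∀ᵐ X ∂ν, X ∈ closure (Set.range fun a => T a (St φ))) ↔ ν = ρ) ∧
    ∃ Φ, IsInt Φ ∧ (Summable fun Λ : {Λ : Finset ℤ // 0 ∈ Λ} => ⨆ X, |Φ Λ X|) ∧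
      (∀ X Y, {i | Y i ≠ X i}.Finite → Summable fun Λ => Φ Λ Y - Φ Λ X) ∧
      (∀ ν, GS Φ ν ↔ ν = ρ) ∧ ∀ Φ', IsInt Φ' → FinR Φ' → ∃ ε₀ : ℝ, 0 < ε₀ ∧
        ∀ ε, 0 < ε → ε < ε₀ → GS (fun Λ X => Φ Λ X + ε * Φ' Λ X) ρ := by
  refine ⟨ph, ph_irr, ph0, ph1, rho, fun ν => ⟨fun h => uniq h.1 rho_inv
    (h.2.mono fun X => (clos X).1) rho_leg, ?_⟩, PP, PP_int, PP_summ, fun X Y => diff_summ,
    fun ν => ⟨fun h => uniq h.1 rho_inv (gs_leg h) rho_leg, ?_⟩, fun Φ' h1 h2 => ?_⟩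
  · rintro rfl
    exact ⟨rho_inv, rho_leg.mono fun X => (clos X).2⟩
  · rintro rfl
    exact ⟨rho_inv, rho_leg.mono fun X hX Y hY => (EE_nonneg _ _ _).trans (EE_le hX hY 0 0)⟩
  · obtain ⟨ε₀, h3, h4⟩ := stable h1 h2
    exact ⟨ε₀, h3, fun ε e1 e2 => ⟨rho_inv, rho_leg.mono fun X hX Y hY => h4 ε e1 e2 X Y hX hY⟩⟩

end

end Pool.Agent.H.MP_084e97_mp
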